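import Pool.Agent.H24.FD.P3
import Pool.Agent.H48.FD.EPA

/-! # MP_1f2761, row GLP: `pw` is a weight and `EP` is a sum over naturals -/

set_option autoImplicit false

open Finset Pool.K2 Pool.FD MeasureTheory

namespace Pool.Agent.H24.FD

private theorem glp_digits (B : ℕ) (k : ℕ) (f : Fin k → ℕ) (hf : ∀ i, f i < B) :
    ∑ i : Fin k, B ^ (i : ℕ) * f i < B ^ k := by
  induction k with
  | zero => simp
  | succ k ih =>
    rw [Fin.sum_univ_castSucc]
    have h1 := ih (fun i => f i.castSucc) (fun i => hf _)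
    have h2 : f (Fin.last k) + 1 ≤ B := hf _
    simp only [Fin.val_castSucc, Fin.val_last]
    have h3 : B ^ k * (f (Fin.last k) + 1) ≤ B ^ k * B := Nat.mul_le_mul_left _ h2
    rw [pow_succ]
    rw [Nat.mul_add, Nat.mul_one] at h3
    omega

private theorem glp_vA_lt {l : ℕ} (s : Fin l → Fin 3) : vA s < 2 ^ l := by
  unfold vA
  apply glp_digits
  intro i
  split_ifs <;> norm_num

private theorem glp_vN_lt {l : ℕ} (s : Fin l → Fin 3) : vN s < 2 ^ l := by
  unfold vN
  apply glp_digits
  intro i
  split_ifs <;> norm_num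

private theorem glp_VN_lt {l u : ℕ} (U : Fin u → Fin l → Fin 3) : VN U < 2 ^ (l * u) := by
  unfold VN
  rw [pow_mul]
  exact glp_digits _ _ _ fun i => glp_vN_lt _

private theorem glp_VA_lt {l u : ℕ} (U : Fin u → Fin l → Fin 3) : VA U < 2 ^ (l * u) := by
  unfold VA
  rw [pow_mul]
  exact glp_digits _ _ _ fun i => glp_vA_lt _

private theorem glp_sum (l u : ℕ) (H : ℕ → ℕ → ℝ) :
    ∑ n ∈ range (2 ^ (l * u)), ∑ a ∈ range (2 ^ (l * u)), pw l u n a * H n a =
      ∑ U : Fin u → Fin l → Fin 3, PT eb U * H (VN U) (VA U) := by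
  have h1 : ∀ n a : ℕ, pw l u n a * H n a =
      ∑ U : Fin u → Fin l → Fin 3, if VN U = n ∧ VA U = a then PT eb U * H n a else 0 := by
    intro n a
    unfold pw
    rw [Finset.sum_mul]
    apply Finset.sum_congr rfl
    intro U _
    split_ifs
    · rfl
    · rw [zero_mul]
  calc ∑ n ∈ range (2 ^ (l * u)), ∑ a ∈ range (2 ^ (l * u)), pw l u n a * H n a
      = ∑ n ∈ range (2 ^ (l * u)), ∑ a ∈ range (2 ^ (l * u)), ∑ U : Fin u → Fin l → Fin 3,
          (if VN U = n ∧ VA U = a then PT eb U * H n a else 0) :=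
        Finset.sum_congr rfl fun n _ => Finset.sum_congr rfl fun a _ => h1 n a
    _ = ∑ n ∈ range (2 ^ (l * u)), ∑ U : Fin u → Fin l → Fin 3, ∑ a ∈ range (2 ^ (l * u)),
          (if VN U = n ∧ VA U = a then PT eb U * H n a else 0) :=
        Finset.sum_congr rfl fun n _ => Finset.sum_comm
    _ = ∑ U : Fin u → Fin l → Fin 3, ∑ n ∈ range (2 ^ (l * u)), ∑ a ∈ range (2 ^ (l * u)),
          (if VN U = n ∧ VA U = a then PT eb U * H n a else 0) := Finset.sum_comm
    _ = ∑ U : Fin u → Fin l → Fin 3, PT eb U * H (VN U) (VA U) := by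
        apply Finset.sum_congr rfl
        intro U _
        rw [Finset.sum_eq_single (VN U), Finset.sum_eq_single (VA U)]
        · simp
        · intro a _ ha
          rw [if_neg]
          rintro ⟨_, h⟩
          exact ha h.symm
        · intro h
          exact absurd (Finset.mem_range.2 (glp_VA_lt U)) h
        · intro n _ hn
          apply Finset.sum_eq_zero
          intro a _
          rw [if_neg]
          rintro ⟨h, _⟩
          exact hn h.symm
        · intro h
          exact absurd (Finset.mem_range.2 (glp_VN_lt U)) h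

theorem glp : GLPStmt := by
  intro l hM u
  refine ⟨⟨?_, ?_⟩, ?_⟩
  · intro n a
    unfold pw
    apply Finset.sum_nonneg
    intro U _
    split_ifs
    · exact H48.PT_nonneg eb U
    · exact le_rfl
  · have h := glp_sum l u (fun _ _ => 1)
    simp only [mul_one] at h
    rw [h]
    exact H48.sum_PT_le eb hM u
  · intro F x
    rw [glp_sum l u (fun n a => F (2 ^ (l * u) * x.1 + n, 2 ^ (l * u) * x.2 + a))]
    rfl

end Pool.Agent.H24.FD
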