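import Pool.Agent.H24.FD.P5

/-!
# MP_1f2761, k = 2: row LAW (the process as a kernel)
-/

set_option autoImplicit false

open Finset Pool.K2 Pool.FD MeasureTheory

namespace Pool.Agent.H24.FD

namespace Law99

variable {q l k : ℕ} {ε : ℝ} {om : ℕ → ℕ × ℕ → ℝ}

theorem EQ_succ' (J n : ℕ) (f : ℕ × ℕ → ℝ) (x : ℕ × ℕ) :
    EQ q l k ε om J (n + 1) f x = ∑ S : Fin k → Fin l → Fin 3,
      piQ q l k ε om J x S * EQ q l k ε om (J - l * k) n f (app x S) := rfl

/-- The expectation depends only on the values of `f` at the states which extend `x`. -/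
theorem EQ_supp (hV : VALSStmt) (n : ℕ) : ∀ (J : ℕ) (f g : ℕ × ℕ → ℝ) (x : ℕ × ℕ),
    (∀ η < 2 ^ (l * k * n), ∀ ξ < 2 ^ (l * k * n),
      f (2 ^ (l * k * n) * x.1 + η, 2 ^ (l * k * n) * x.2 + ξ) =
        g (2 ^ (l * k * n) * x.1 + η, 2 ^ (l * k * n) * x.2 + ξ)) →
    EQ q l k ε om J n f x = EQ q l k ε om J n g x := by
  induction n with
  | zero =>
    intro J f g x h
    have h1 := h 0 (by simp) 0 (by simp)
    simp only [mul_zero, pow_zero, one_mul, add_zero] at h1
    exact h1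
  | succ n ih =>
    intro J f g x h
    rw [EQ_succ', EQ_succ']
    refine sum_congr rfl fun S _ => ?_
    congr 1
    refine ih _ _ _ _ ?_
    intro η hη ξ hξ
    obtain ⟨h1, h2, -, -⟩ := hV l k S
    have e0 : (2 : ℕ) ^ (l * k * (n + 1)) = 2 ^ (l * k * n) * 2 ^ (l * k) := by
      rw [← pow_add]
      congr 1
    have key : ∀ (a v η : ℕ), 2 ^ (l * k * n) * (2 ^ (l * k) * a + v) + η =
        2 ^ (l * k * (n + 1)) * a + (2 ^ (l * k * n) * v + η) := by
      intro a v η
      rw [e0]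
      ring
    have lt : ∀ v η : ℕ, v < 2 ^ (l * k) → η < 2 ^ (l * k * n) →
        2 ^ (l * k * n) * v + η < 2 ^ (l * k * (n + 1)) := by
      intro v η hv hη
      rw [e0]
      calc 2 ^ (l * k * n) * v + η < 2 ^ (l * k * n) * v + 2 ^ (l * k * n) := by omega
        _ = 2 ^ (l * k * n) * (v + 1) := by ring
        _ ≤ 2 ^ (l * k * n) * 2 ^ (l * k) := Nat.mul_le_mul_left _ hv
    have h3 := h _ (lt _ _ h1 hη) _ (lt _ _ h2 hξ)
    simp only [app]
    rw [key, key]
    exact h3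

/-- Finite linearity. -/
theorem EQ_sum (hE : EQBStmt) (hM : Marg ε l) (hom : ∀ J z, 0 ≤ om J z) {ι : Type*} (s : Finset ι)
    (c : ι → ℝ) (F : ι → ℕ × ℕ → ℝ) (n J : ℕ) (x : ℕ × ℕ) :
    EQ q l k ε om J n (fun y => ∑ i ∈ s, c i * F i y) x =
      ∑ i ∈ s, c i * EQ q l k ε om J n (F i) x := by
  classical
  obtain ⟨hc, -, hl, -, -⟩ := hE q l k ε om hM hom
  induction s using Finset.induction_on with
  | empty =>
    simp only [sum_empty]
    exact hc n J 0 x
  | insert a s ha ih =>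
    rw [sum_insert ha, ← ih, ← hl]
    congr 1
    funext y
    rw [sum_insert ha]

end Law99

open Law99 in
/-- LAW. -/
theorem law (hV : VALSStmt) (hE : EQBStmt) : LAWStmt := by
  classical
  intro q l k ε om hM hom n Jt x
  obtain ⟨hc, hm, hl, ht, hN⟩ := hE q l k ε om hM hom
  have hpt : ∀ η ξ η' ξ' : ℕ,
      ((2 ^ (l * k * n) * x.1 + η', 2 ^ (l * k * n) * x.2 + ξ') : ℕ × ℕ) =
        (2 ^ (l * k * n) * x.1 + η, 2 ^ (l * k * n) * x.2 + ξ) ↔ η' = η ∧ ξ' = ξ := by
    intro η ξ η' ξ'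
    rw [Prod.mk.injEq]
    omega
  refine ⟨?_, ?_, ?_⟩
  · intro η ξ
    have h1 := hm n Jt (fun _ => 0) (fun y =>
      if y = (2 ^ (l * k * n) * x.1 + η, 2 ^ (l * k * n) * x.2 + ξ) then 1 else 0) x (by
        intro y
        split_ifs
        · exact zero_le_one
        · exact le_rfl)
    rw [hc] at h1
    exact h1
  · intro η hη
    have h1 := EQ_sum (q := q) (k := k) hE hM hom (range (2 ^ (l * k * n))) (fun _ => (1 : ℝ))
      (fun ξ y => if y = (2 ^ (l * k * n) * x.1 + η, 2 ^ (l * k * n) * x.2 + ξ) then 1 else 0)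
      n Jt x
    simp only [one_mul] at h1
    unfold PW
    rw [← h1]
    have h2 : EQ q l k ε om Jt n (fun y => ∑ ξ ∈ range (2 ^ (l * k * n)),
        if y = (2 ^ (l * k * n) * x.1 + η, 2 ^ (l * k * n) * x.2 + ξ) then (1 : ℝ) else 0) x =
        EQ q l k ε om Jt n (fun y => (fun v => if v = 2 ^ (l * k * n) * x.1 + η then (1 : ℝ)
          else 0) y.1) x := by
      refine EQ_supp hV n Jt _ _ x ?_
      intro η' _ ξ' hξ'
      simp only [hpt]
      by_cases h : η' = η
      · subst h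
        simp only [true_and, if_true]
        rw [sum_ite_eq, if_pos (mem_range.2 hξ')]
      · have h3 : ¬ (2 ^ (l * k * n) * x.1 + η' = 2 ^ (l * k * n) * x.1 + η) := by omega
        simp only [h, false_and, if_false, sum_const_zero]
        rw [if_neg h3]
    rw [h2]
    refine (hN n Jt (fun v => if v = 2 ^ (l * k * n) * x.1 + η then (1 : ℝ) else 0) x).trans ?_
    congr 1
    have h4 : ∀ η' ∈ range (2 ^ (l * k * n)),
        (if 2 ^ (l * k * n) * x.1 + η' = 2 ^ (l * k * n) * x.1 + η then (1 : ℝ) else 0) =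
          if η' = η then 1 else 0 := by
      intro η' _
      simp only [add_right_inj]
    rw [sum_congr rfl h4, sum_ite_eq', if_pos (mem_range.2 hη)]
  · intro f
    have h1 := EQ_sum (q := q) (k := k) hE hM hom
      (range (2 ^ (l * k * n)) ×ˢ range (2 ^ (l * k * n)))
      (fun p => f (2 ^ (l * k * n) * x.1 + p.1, 2 ^ (l * k * n) * x.2 + p.2))
      (fun p y => if y = (2 ^ (l * k * n) * x.1 + p.1, 2 ^ (l * k * n) * x.2 + p.2) then 1 else 0)
      n Jt x
    have h2 : EQ q l k ε om Jt n f x = EQ q l k ε om Jt n (fun y =>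
        ∑ p ∈ range (2 ^ (l * k * n)) ×ˢ range (2 ^ (l * k * n)),
          f (2 ^ (l * k * n) * x.1 + p.1, 2 ^ (l * k * n) * x.2 + p.2) *
          if y = (2 ^ (l * k * n) * x.1 + p.1, 2 ^ (l * k * n) * x.2 + p.2) then 1 else 0) x := by
      refine EQ_supp hV n Jt _ _ x ?_
      intro η hη ξ hξ
      rw [sum_eq_single (η, ξ)]
      · simp
      · rintro ⟨η', ξ'⟩ _ hne
        rw [if_neg, mul_zero]
        rw [hpt]
        rintro ⟨h3, h4⟩
        exact hne (by rw [h3, h4])
      · intro h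
        exact absurd (mem_product.2 ⟨mem_range.2 hη, mem_range.2 hξ⟩) h
    rw [h2, h1, sum_product]
    refine sum_congr rfl fun η _ => sum_congr rfl fun ξ _ => ?_
    rw [mul_comm]
    rfl

end Pool.Agent.H24.FD
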